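import Pool.Agent.N325.DD.LB

/-!
# Lower bounds of the limit by finite tables: the table

(project DD2 of helper325; this part by helper170)
-/

set_option autoImplicit false

namespace Pool.Agent.N325.DD

open Finset

theorem chkT_cons {K N a : ℕ} {t : Ent} {T : List Ent} (h : chkT K N a (t :: T) = true) :
    a ≤ t.1 ∧ t.1 < t.2.1 ∧ chk K N t = true ∧ chkT K N t.2.1 T = true := by
  unfold chkT at h
  rw [Bool.and_eq_true, Bool.and_eq_true, Bool.and_eq_true] at h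
  exact ⟨Nat.le_of_ble_eq_true h.1, Nat.le_of_ble_eq_true h.2.1, h.2.2.1, h.2.2.2⟩

/-- **The table**: the gains are gains. -/
theorem table_ok (K N : ℕ) (hbase : ∀ n q, q ≤ n → bq K n q ≤ g K n q)
    (hent : ∀ t : Ent, chk K N t = true → ∀ n q, t.1 ≤ q → q < t.2.1 → q ≤ n →
      bq K n q + gn t ≤ g K n q) (T : List Ent) (a : ℕ) (h : chkT K N a T = true) (n q : ℕ)
    (hqn : q ≤ n) : bq K n q + gT T q ≤ g K n q := by
  induction T generalizing a with
  | nil =>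
    unfold gT
    rw [add_zero]
    exact hbase n q hqn
  | cons t T ih =>
    obtain ⟨_, _, h3, h4⟩ := chkT_cons h
    unfold gT
    by_cases hq : t.1 ≤ q ∧ q < t.2.1
    · rw [if_pos hq]
      exact hent t h3 n q hq.1 hq.2 hqn
    · rw [if_neg hq]
      exact ih _ h4

theorem gT_lt {K N : ℕ} (T : List Ent) (a : ℕ) (h : chkT K N a T = true) (q : ℕ) (hq : q < a) :
    gT T q = 0 := by
  induction T generalizing a with
  | nil => rfl
  | cons t T ih =>
    obtain ⟨h1, h2, _, h4⟩ := chkT_cons h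
    unfold gT
    rw [if_neg (by omega)]
    exact ih _ h4 (by omega)

theorem gT_ge (T : List Ent) (B : ℕ) (hB : ∀ t ∈ T, t.2.1 ≤ B) (q : ℕ) (hq : B ≤ q) :
    gT T q = 0 := by
  induction T with
  | nil => rfl
  | cons t T ih =>
    have h1 := hB t List.mem_cons_self
    unfold gT
    rw [if_neg (by omega)]
    exact ih fun s hs => hB s (List.mem_cons_of_mem _ hs)

theorem ex_bound (T : List Ent) : ∃ B : ℕ, ∀ t ∈ T, t.2.1 ≤ B := by
  induction T with
  | nil => exact ⟨0, fun t ht => absurd ht List.not_mem_nil⟩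
  | cons t T ih =>
    obtain ⟨B, hB⟩ := ih
    refine ⟨max t.2.1 B, fun s hs => ?_⟩
    rcases List.mem_cons.1 hs with rfl | hs
    · exact le_max_left _ _
    · exact (hB s hs).trans (le_max_right _ _)

theorem tele (lo hi : ℕ) (h1 : 1 ≤ lo) (h2 : lo ≤ hi) :
    ∑ q ∈ Finset.Ico lo hi, 1 / ((q : ℝ) * (q + 1)) = 1 / (lo : ℝ) - 1 / (hi : ℝ) := by
  induction hi, h2 using Nat.le_induction with
  | base => simp
  | succ m hm ih =>
    rw [Finset.sum_Ico_succ_top hm, ih]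
    have hm0 : (0 : ℝ) < m := by exact_mod_cast lt_of_lt_of_le h1 hm
    have hl0 : (0 : ℝ) < lo := by exact_mod_cast h1
    push_cast
    field_simp
    ring

theorem val_le (M lo hi : ℕ) (h1 : 1 ≤ lo) (h2 : lo ≤ hi) :
    (((M / lo - (M / hi + 1) : ℕ)) : ℝ) ≤ M * (1 / (lo : ℝ) - 1 / (hi : ℝ)) := by
  have hl0 : (0 : ℝ) < lo := by exact_mod_cast h1
  have hh0 : (0 : ℝ) < hi := by exact_mod_cast lt_of_lt_of_le h1 h2
  have hM0 : (0 : ℝ) ≤ M := Nat.cast_nonneg _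
  rcases le_total (M / lo) (M / hi + 1) with h | h
  · rw [Nat.sub_eq_zero_of_le h, Nat.cast_zero]
    refine mul_nonneg hM0 (sub_nonneg.2 ?_)
    exact one_div_le_one_div_of_le hl0 (by exact_mod_cast h2)
  · rw [Nat.cast_sub h]
    have h3 : ((M / lo : ℕ) : ℝ) ≤ (M : ℝ) / lo := Nat.cast_div_le
    have h4 : (M : ℝ) / hi < ((M / hi + 1 : ℕ) : ℝ) := by
      rw [div_lt_iff₀ hh0]
      have h5 : M < hi * (M / hi + 1) := Nat.lt_mul_div_succ M (lt_of_lt_of_le h1 h2)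
      have h6 : (M : ℝ) < hi * ((M / hi + 1 : ℕ) : ℝ) := by exact_mod_cast h5
      linarith
    have h7 : (M : ℝ) * (1 / (lo : ℝ) - 1 / (hi : ℝ)) = (M : ℝ) / lo - (M : ℝ) / hi := by ring
    rw [h7]
    linarith

theorem table_sum (K N : ℕ) (M : ℕ) (L : ℕ) (T : List Ent) (a : ℕ) (ha : 1 ≤ a)
    (h : chkT K N a T = true) (hL : ∀ t ∈ T, t.2.1 ≤ L) :
    ((vT M T : ℕ) : ℝ) ≤ M * ∑ q ∈ Finset.Icc 1 L, (gT T q : ℝ) / ((q : ℝ) * (q + 1)) := by
  induction T generalizing a with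
  | nil =>
    unfold vT gT
    simp
  | cons t T ih =>
    obtain ⟨h1, h2, _, h4⟩ := chkT_cons h
    have ih' := ih t.2.1 (by omega) h4 fun s hs => hL s (List.mem_cons_of_mem _ hs)
    have hsplit : ∀ q, (gT (t :: T) q : ℝ) =
        (if t.1 ≤ q ∧ q < t.2.1 then (gn t : ℝ) else 0) + (gT T q : ℝ) := by
      intro q
      rw [show gT (t :: T) q = if t.1 ≤ q ∧ q < t.2.1 then gn t else gT T q from rfl]
      by_cases hq : t.1 ≤ q ∧ q < t.2.1
      · rw [if_pos hq, if_pos hq, gT_lt T t.2.1 h4 q hq.2, Nat.cast_zero, add_zero]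
      · rw [if_neg hq, if_neg hq, zero_add]
    have hsum : ∑ q ∈ Finset.Icc 1 L, (gT (t :: T) q : ℝ) / ((q : ℝ) * (q + 1)) =
        ∑ q ∈ Finset.Icc 1 L, (if t.1 ≤ q ∧ q < t.2.1 then (gn t : ℝ) else 0) /
          ((q : ℝ) * (q + 1)) +
        ∑ q ∈ Finset.Icc 1 L, (gT T q : ℝ) / ((q : ℝ) * (q + 1)) := by
      rw [← Finset.sum_add_distrib]
      refine Finset.sum_congr rfl fun q _ => ?_
      rw [hsplit, add_div]
    have hhi := hL t List.mem_cons_self
    have hfirst : (gn t : ℝ) * (1 / (t.1 : ℝ) - 1 / (t.2.1 : ℝ)) ≤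
        ∑ q ∈ Finset.Icc 1 L, (if t.1 ≤ q ∧ q < t.2.1 then (gn t : ℝ) else 0) /
          ((q : ℝ) * (q + 1)) := by
      have h5 : (gn t : ℝ) * (1 / (t.1 : ℝ) - 1 / (t.2.1 : ℝ)) =
          ∑ q ∈ Finset.Ico t.1 t.2.1, (if t.1 ≤ q ∧ q < t.2.1 then (gn t : ℝ) else 0) /
            ((q : ℝ) * (q + 1)) := by
        rw [← tele t.1 t.2.1 (ha.trans h1) h2.le, Finset.mul_sum]
        refine Finset.sum_congr rfl fun q hq => ?_
        rw [if_pos (Finset.mem_Ico.1 hq)]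
        ring
      rw [h5]
      refine Finset.sum_le_sum_of_subset_of_nonneg ?_ fun q _ _ => ?_
      · intro q hq
        rw [Finset.mem_Ico] at hq
        rw [Finset.mem_Icc]
        omega
      · refine div_nonneg ?_ (by positivity)
        split_ifs
        · exact Nat.cast_nonneg _
        · exact le_rfl
    have hval := val_le M t.1 t.2.1 (ha.trans h1) h2.le
    rw [show vT M (t :: T) = gn t * (M / t.1 - (M / t.2.1 + 1)) + vT M T from rfl, hsum, mul_add]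
    rw [Nat.cast_add, Nat.cast_mul]
    refine add_le_add ?_ ih'
    calc (gn t : ℝ) * ((M / t.1 - (M / t.2.1 + 1) : ℕ) : ℝ)
        ≤ (gn t : ℝ) * (M * (1 / (t.1 : ℝ) - 1 / (t.2.1 : ℝ))) :=
          mul_le_mul_of_nonneg_left hval (Nat.cast_nonneg _)
      _ = M * ((gn t : ℝ) * (1 / (t.1 : ℝ) - 1 / (t.2.1 : ℝ))) := by ring
      _ ≤ _ := mul_le_mul_of_nonneg_left hfirst (Nat.cast_nonneg _)

/-- **The table**: its value. -/
theorem table_val (K N : ℕ) (hK : 1 ≤ K) (M : ℕ) (hM : 0 < M) (T : List Ent) (a : ℕ) (ha : 1 ≤ a)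
    (h : chkT K N a T = true) : ∃ X : ℕ, (∀ q, K * X ≤ q → gT T q = 0) ∧
      ((vT M T : ℕ) : ℝ) / M ≤
        ∑ q ∈ Finset.Icc 1 (K * X), (gT T q : ℝ) / ((q : ℝ) * (q + 1)) := by
  obtain ⟨B, hB⟩ := ex_bound T
  have hKB : B ≤ K * B := Nat.le_mul_of_pos_left B hK
  refine ⟨B, fun q hq => gT_ge T B hB q (hKB.trans hq), ?_⟩
  have hM' : (0 : ℝ) < M := by exact_mod_cast hM
  rw [div_le_iff₀ hM', mul_comm]
  exact table_sum K N M (K * B) T a ha h fun t ht => (hB t ht).trans hKB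

end Pool.Agent.N325.DD
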